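import Pool.Agent.Helper406.HK.Num

set_option autoImplicit false
set_option linter.unusedSectionVars false

open MeasureTheory Set Filter Topology InnerProductSpace
open scoped ContDiff ComplexConjugate

namespace Pool.Agent.Y285.HR

open Pool.Agent.Helper406.HK

noncomputable section

/-- base scale function -/
def gd (x : ℝ) : ℝ := Real.arctan (Real.sinh x)

theorem gd_contDiff : ContDiff ℝ ∞ gd := Real.contDiff_arctan.comp Real.contDiff_sinh

theorem gd_deriv (x : ℝ) : HasDerivAt gd (1 / (1 + Real.sinh x ^ 2) * Real.cosh x) x :=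
  (Real.hasDerivAt_arctan _).comp x (Real.hasDerivAt_sinh x)

theorem gd_nonneg {x : ℝ} (hx : 0 ≤ x) : 0 ≤ gd x :=
  Real.arctan_nonneg.mpr (Real.sinh_nonneg_iff.mpr hx)

theorem gd_le_two (x : ℝ) : gd x ≤ 2 := arctan_le_two _

theorem gd_mono : Monotone gd := Real.arctan_strictMono.monotone.comp Real.sinh_strictMono.monotone

/-- coefficient with scale function `gd x + stair x - stair (-x)` -/
def coefG (z w : ℕ → ℝ) (hz : ∀ k : ℕ, (k : ℝ) ≤ z k) (hw : ∀ k, 0 ≤ w k) : Coef where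
  S := fun x => gd x + (stair z w x - stair z w (-x))
  smooth := gd_contDiff.add
    ((stair_smooth hz).sub ((stair_smooth hz).comp contDiff_neg))
  pos := by
    intro x
    have hd : Differentiable ℝ (stair z w) := (stair_smooth hz).differentiable (by simp)
    have h1 : HasDerivAt (fun x => gd x + (stair z w x - stair z w (-x)))
        (1 / (1 + Real.sinh x ^ 2) * Real.cosh x +
          (deriv (stair z w) x - deriv (stair z w) (-x) * (-1))) x :=
      (gd_deriv x).add ((hd x).hasDerivAt.sub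
        ((hd (-x)).hasDerivAt.comp x (hasDerivAt_neg x)))
    rw [h1.deriv]
    have h2 : 0 ≤ deriv (stair z w) x := (stair_mono hz hw).deriv_nonneg
    have h3 : 0 ≤ deriv (stair z w) (-x) := (stair_mono hz hw).deriv_nonneg
    have h5 := Real.cosh_pos x
    have h4 : 0 < 1 / (1 + Real.sinh x ^ 2) * Real.cosh x := by positivity
    linarith

theorem coefG_odd {z w : ℕ → ℝ} (hz : ∀ k : ℕ, (k : ℝ) ≤ z k) (hw : ∀ k, 0 ≤ w k) (x : ℝ) :
    (coefG z w hz hw).S (-x) = - (coefG z w hz hw).S x := by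
  show gd (-x) + (stair z w (-x) - stair z w (- -x))
    = - (gd x + (stair z w x - stair z w (-x)))
  unfold gd
  rw [Real.sinh_neg, Real.arctan_neg, neg_neg]
  ring

theorem coefG_S {z w : ℕ → ℝ} (hz : ∀ k : ℕ, (k : ℝ) ≤ z k) (hw : ∀ k, 0 ≤ w k) {x : ℝ}
    (hx : 0 ≤ x) : (coefG z w hz hw).S x = gd x + stair z w x := by
  show gd x + (stair z w x - stair z w (-x)) = _
  rw [stair_nonpos (x := -x) (by linarith)]
  ring

/-- The scales: jumps of the critical coefficient at `x n`, times `t n`. -/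
structure Sc (h : ℝ → ℝ) (x t : ℕ → ℝ) : Prop where
  x0 : x 0 = 0
  hx : ∀ n, x (n + 1) = (576 * 4 ^ n * t n) ^ 2
  ht : ∀ n, Real.exp (x n + 1) ≤ t n
  hr : ∀ n : ℕ, ((n : ℝ) + 1) * (1 + |h (t n)|) *
    (20000000 * ((n : ℝ) + 3) ^ 2 * Real.log (t n)) ≤ ((1 / 2 : ℝ) ^ n) ^ 4 * t n

theorem exists_sc {h : ℝ → ℝ} (hh : Tendsto (fun t => h t * Real.log t / t) atTop (𝓝 0)) :
    ∃ x t : ℕ → ℝ, Sc h x t := by
  have h1 : ∀ (n : ℕ) (x : ℝ), ∃ t : ℝ, Real.exp (x + 1) ≤ t ∧
      ((n : ℝ) + 1) * (1 + |h t|) * (20000000 * ((n : ℝ) + 3) ^ 2 * Real.log t) ≤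
        ((1 / 2 : ℝ) ^ n) ^ 4 * t := by
    intro n x
    have hlog : Tendsto (fun t : ℝ => Real.log t / t) atTop (𝓝 0) := by
      have := Real.isLittleO_log_id_atTop.tendsto_div_nhds_zero
      exact this
    have habs : Tendsto (fun t => |h t * Real.log t / t|) atTop (𝓝 0) := by
      have := hh.abs
      simpa using this
    have hs := hlog.add habs
    rw [add_zero] at hs
    have hc : 0 < ((1 / 2 : ℝ) ^ n) ^ 4 / (((n : ℝ) + 1) * (20000000 * ((n : ℝ) + 3) ^ 2)) := by
      positivity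
    obtain ⟨t, ht1, ht2⟩ := ((hs.eventually_lt_const hc).and
      (eventually_ge_atTop (max 1 (Real.exp (x + 1))))).exists
    have ht1' : 1 ≤ t := (le_max_left _ _).trans ht2
    have hl : 0 ≤ Real.log t := Real.log_nonneg ht1'
    refine ⟨t, (le_max_right _ _).trans ht2, ?_⟩
    have e : Real.log t / t + |h t * Real.log t / t| = (1 + |h t|) * Real.log t / t := by
      rw [abs_div, abs_mul, abs_of_nonneg hl, abs_of_pos (by linarith : 0 < t)]
      ring
    rw [e, div_lt_div_iff₀ (by linarith) (by positivity)] at ht1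
    nlinarith
  choose F hF1 hF2 using h1
  let x : ℕ → ℝ := fun n => Nat.rec 0 (fun n xn => (576 * 4 ^ n * F n xn) ^ 2) n
  exact ⟨x, fun n => F n (x n), rfl, fun n => rfl, fun n => hF1 n _, fun n => hF2 n _⟩

variable {h : ℝ → ℝ} {x t : ℕ → ℝ}

/-- positions of the jumps of the subcritical coefficient -/
def yy (t : ℕ → ℝ) (n : ℕ) : ℝ := 576 * 4 ^ n * t n

theorem Sc.x_nonneg (s : Sc h x t) (n : ℕ) : 0 ≤ x n := by
  cases n with
  | zero => rw [s.x0]
  | succ n => rw [s.hx]; positivity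

theorem Sc.t_ge (s : Sc h x t) (n : ℕ) : x n + 2 ≤ t n := by
  have h1 := Real.add_one_le_exp (x n + 1)
  have h2 := s.ht n
  linarith

theorem Sc.t_two (s : Sc h x t) (n : ℕ) : 2 ≤ t n := by linarith [s.t_ge n, s.x_nonneg n]

theorem Sc.log_ge (s : Sc h x t) (n : ℕ) : x n + 1 ≤ Real.log (t n) := by
  have := s.t_two n
  rw [Real.le_log_iff_exp_le (by linarith)]
  exact s.ht n

theorem Sc.t_le_y (s : Sc h x t) (n : ℕ) : 576 * t n ≤ yy t n := by
  unfold yy
  have h1 : (1 : ℝ) ≤ 4 ^ n := one_le_pow₀ (by norm_num)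
  have := s.t_two n
  nlinarith

theorem Sc.x_succ (s : Sc h x t) (n : ℕ) : x (n + 1) = yy t n ^ 2 := s.hx n

theorem Sc.y_le (s : Sc h x t) (n : ℕ) : yy t n ≤ x (n + 1) := by
  have h1 := s.t_le_y n
  have h2 := s.t_two n
  rw [s.x_succ]
  nlinarith

theorem Sc.x_gap1 (s : Sc h x t) (n : ℕ) : x n + 1 ≤ x (n + 1) := by
  have h1 := s.t_le_y n
  have h2 := s.t_two n
  have h3 := s.t_ge n
  have h4 := s.y_le n
  linarith

theorem Sc.x_gap (s : Sc h x t) {k n : ℕ} (hk : k < n) : x k + 1 ≤ x n := by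
  induction n, hk using Nat.le_induction with
  | base => exact s.x_gap1 k
  | succ n hn ih => linarith [s.x_gap1 n]

theorem Sc.x_mono (s : Sc h x t) {k n : ℕ} (hk : k ≤ n) : x k ≤ x n := by
  rcases eq_or_lt_of_le hk with h1 | h1
  · rw [h1]
  · linarith [s.x_gap h1]

theorem Sc.nat_le_x (s : Sc h x t) (n : ℕ) : (n : ℝ) ≤ x n := by
  induction n with
  | zero => rw [s.x0]; simp
  | succ n ih => push_cast; linarith [s.x_gap1 n]

theorem Sc.y_gap (s : Sc h x t) {k n : ℕ} (hk : k < n) : yy t k + 1 ≤ yy t n := by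
  have h1 := s.y_le k
  have h2 := s.x_mono (Nat.succ_le_of_lt hk)
  have h3 := s.t_ge n
  have h4 := s.t_le_y n
  have h5 := s.t_two n
  have h6 : x (k + 1) ≤ x n := h2
  linarith

theorem Sc.y_mono (s : Sc h x t) {k n : ℕ} (hk : k ≤ n) : yy t k ≤ yy t n := by
  rcases eq_or_lt_of_le hk with h1 | h1
  · rw [h1]
  · linarith [s.y_gap h1]

theorem Sc.nat_le_y (s : Sc h x t) (n : ℕ) : (n : ℝ) ≤ yy t n := by
  have h3 := s.t_ge n
  have h4 := s.t_le_y n
  have h5 := s.t_two n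
  have h6 := s.nat_le_x n
  linarith

/-- critical coefficient -/
def k0 (s : Sc h x t) : Coef := coefG x (fun _ => 1) s.nat_le_x (fun _ => zero_le_one)

/-- subcritical coefficient -/
def k1 (s : Sc h x t) : Coef := coefG (yy t) (fun k => (1 / 2) ^ k) s.nat_le_y
  (fun _ => by positivity)

theorem k0_odd (s : Sc h x t) (r : ℝ) : (k0 s).S (-r) = - (k0 s).S r := coefG_odd _ _ r

theorem k1_odd (s : Sc h x t) (r : ℝ) : (k1 s).S (-r) = - (k1 s).S r := coefG_odd _ _ r

theorem k0_S (s : Sc h x t) (n : ℕ) {r : ℝ} (h1 : x n + 1 ≤ r) (h2 : r ≤ x (n + 1)) :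
    (k0 s).S r = gd r + (n + 1) := by
  have h0 := s.x_nonneg n
  unfold k0
  rw [coefG_S _ _ (by linarith), stair_val s.nat_le_x (n := n + 1)]
  · simp
  · intro k hk
    have := s.x_mono (Nat.lt_succ_iff.mp hk)
    linarith
  · intro k hk
    exact h2.trans (s.x_mono hk)

theorem k1_S_X (s : Sc h x t) (n : ℕ) : (k1 s).S (yy t n + 1) = gd (yy t n + 1)
    + ∑ k ∈ Finset.range (n + 1), (1 / 2 : ℝ) ^ k := by
  have h1 := s.t_le_y n
  have h2 := s.t_two n
  unfold k1
  rw [coefG_S _ _ (by linarith), stair_val s.nat_le_y (n := n + 1)]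
  · intro k hk
    have := s.y_mono (Nat.lt_succ_iff.mp hk)
    linarith
  · intro k hk
    exact s.y_gap (Nat.lt_of_succ_le hk)

theorem k1_S_Y (s : Sc h x t) (n : ℕ) : (k1 s).S (yy t n) = gd (yy t n)
    + ∑ k ∈ Finset.range n, (1 / 2 : ℝ) ^ k := by
  have h1 := s.t_le_y n
  have h2 := s.t_two n
  unfold k1
  rw [coefG_S _ _ (by linarith), stair_val s.nat_le_y (n := n)]
  · intro k hk
    exact s.y_gap hk
  · intro k hk
    exact s.y_mono hk

theorem k1_bdd (s : Sc h x t) (r : ℝ) : |(k1 s).S r| ≤ 4 := by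
  have key : ∀ r : ℝ, 0 ≤ r → |(k1 s).S r| ≤ 4 := by
    intro r hr
    have h1 : (k1 s).S r = gd r + stair (yy t) (fun k => (1 / 2) ^ k) r := by
      unfold k1
      rw [coefG_S _ _ hr]
    have h2 : 0 ≤ stair (yy t) (fun k => (1 / 2 : ℝ) ^ k) r := by
      unfold stair
      apply Finset.sum_nonneg
      intro k _
      exact mul_nonneg (by positivity) (Real.smoothTransition.nonneg _)
    have h3 : stair (yy t) (fun k => (1 / 2 : ℝ) ^ k) r ≤ 2 := by
      unfold stair
      refine le_trans ?_ (geom_le_two ⌈r⌉₊)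
      apply Finset.sum_le_sum
      intro k _
      calc (1 / 2 : ℝ) ^ k * Real.smoothTransition (r - yy t k) ≤ (1 / 2 : ℝ) ^ k * 1 :=
            mul_le_mul_of_nonneg_left (Real.smoothTransition.le_one _) (by positivity)
        _ = (1 / 2 : ℝ) ^ k := mul_one _
    have h4 := gd_nonneg hr
    have h5 := gd_le_two r
    rw [h1, abs_of_nonneg (by linarith)]
    linarith
  rcases le_total 0 r with h1 | h1
  · exact key r h1
  · have := key (-r) (by linarith)
    rwa [k1_odd, abs_neg] at this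

theorem pd0_le (s : Sc h x t) (n : ℕ) :
    pd (k0 s) (t n) ≤ 11 * ((n : ℝ) + 3) ^ 2 * Real.log (t n) / t n ^ 2 := by
  have ht2 := s.t_two n
  have ht0 : 0 < t n := by linarith
  have hX := s.log_ge n
  have hx0 := s.x_nonneg n
  have hXl : Real.log (t n) ≤ t n := (Real.log_le_sub_one_of_pos ht0).trans (by linarith)
  have hty := s.t_le_y n
  have hyx := s.y_le n
  have hX1 : 1 ≤ Real.log (t n) := by linarith
  have hYt : t n ^ 2 ≤ x (n + 1) := by
    rw [s.x_succ]
    apply pow_le_pow_left₀ ht0.le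
    linarith
  have hY0 : 0 < x (n + 1) := by nlinarith
  have h1 := pd_upper (k0 s) (k0_odd s) (X := Real.log (t n)) (Y := x (n + 1)) ht2 (by linarith) hY0
  refine h1.trans ?_
  rw [k0_S s n hX (by linarith), k0_S s n (s.x_gap1 n) le_rfl]
  have h2 : gd (x (n + 1)) - gd (Real.log (t n)) ≤ 4 / t n := by
    have hsinh : Real.sinh (Real.log (t n)) = (t n - (t n)⁻¹) / 2 := Real.sinh_log ht0
    have hs4 : t n / 4 ≤ Real.sinh (Real.log (t n)) := by
      rw [hsinh]
      have : (t n)⁻¹ ≤ t n / 2 := by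
        rw [inv_le_iff_one_le_mul₀ ht0]; nlinarith
      linarith
    have h3 := arctan_sub_le (X := Real.sinh (Real.log (t n))) (Y := Real.sinh (x (n + 1)))
      (by linarith)
    refine h3.trans ?_
    rw [div_le_div_iff₀ (by linarith) ht0]
    linarith
  have h3 : t n / x (n + 1) ≤ 1 / t n := by
    rw [div_le_div_iff₀ hY0 ht0]
    nlinarith
  have h4 : (gd (Real.log (t n)) + ((n : ℝ) + 1)) ^ 2 ≤ ((n : ℝ) + 3) ^ 2 := by
    have a1 := gd_le_two (Real.log (t n))
    have a2 : 0 ≤ gd (Real.log (t n)) := gd_nonneg (by linarith)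
    apply pow_le_pow_left₀ (by positivity)
    linarith
  have h5 : 2 / t n * Real.log (t n) * (gd (Real.log (t n)) + ((n : ℝ) + 1)) ^ 2 ≤
      2 / t n * Real.log (t n) * ((n : ℝ) + 3) ^ 2 := by gcongr
  have hn3 : (1 : ℝ) ≤ ((n : ℝ) + 3) ^ 2 := by
    have : (0 : ℝ) ≤ n := Nat.cast_nonneg n
    nlinarith
  have h6 : gd (x (n + 1)) + ((n : ℝ) + 1) - (gd (Real.log (t n)) + ((n : ℝ) + 1)) + t n / x (n + 1)
      + 2 / t n * Real.log (t n) * (gd (Real.log (t n)) + ((n : ℝ) + 1)) ^ 2 ≤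
      7 * ((n : ℝ) + 3) ^ 2 * Real.log (t n) / t n := by
    have e1 : 7 * ((n : ℝ) + 3) ^ 2 * Real.log (t n) / t n =
        5 * (((n : ℝ) + 3) ^ 2 * Real.log (t n)) / t n +
        2 / t n * Real.log (t n) * ((n : ℝ) + 3) ^ 2 := by ring
    have e2 : 4 / t n + 1 / t n ≤ 5 * (((n : ℝ) + 3) ^ 2 * Real.log (t n)) / t n := by
      rw [← add_div]
      apply div_le_div_of_nonneg_right _ ht0.le
      nlinarith
    rw [e1]
    linarith
  calc 3 / (2 * t n) * _ ≤ 3 / (2 * t n) * (7 * ((n : ℝ) + 3) ^ 2 * Real.log (t n) / t n) :=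
        mul_le_mul_of_nonneg_left h6 (by positivity)
    _ = (21 / 2) * (((n : ℝ) + 3) ^ 2 * Real.log (t n) / t n ^ 2) := by
        field_simp
        ring
    _ ≤ 11 * (((n : ℝ) + 3) ^ 2 * Real.log (t n) / t n ^ 2) := by
        apply mul_le_mul_of_nonneg_right (by norm_num) (by positivity)
    _ = _ := by ring

theorem le_pd1 (s : Sc h x t) (n : ℕ) :
    ((1 / 2 : ℝ) ^ n) ^ 4 / (1769472 * t n) ≤ pd (k1 s) (t n) := by
  have ht2 := s.t_two n
  have hty := s.t_le_y n
  have hS : (1 / 2 : ℝ) ^ n ≤ (k1 s).S (yy t n + 1) - (k1 s).S (yy t n) := by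
    rw [k1_S_X, k1_S_Y, Finset.sum_range_succ]
    have : gd (yy t n) ≤ gd (yy t n + 1) := gd_mono (by linarith)
    linarith
  have hq4 : ((1 / 2 : ℝ) ^ n) ^ 2 * yy t n = 576 * t n := by
    unfold yy
    have e : ((1 / 2 : ℝ) ^ n) ^ 2 * 4 ^ n = 1 := by
      rw [← pow_mul, mul_comm n 2, pow_mul, ← mul_pow]
      norm_num
    calc ((1 / 2 : ℝ) ^ n) ^ 2 * (576 * 4 ^ n * t n) = (((1 / 2 : ℝ) ^ n) ^ 2 * 4 ^ n) * (576 * t n) := by
          ring
      _ = 576 * t n := by rw [e, one_mul]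
  set q := (1 / 2 : ℝ) ^ n with hq
  have hq0 : 0 < q := by positivity
  have hq1 : q ≤ 1 := pow_le_one₀ (by norm_num) (by norm_num)
  set y := yy t n with hy
  have hy0 : 0 < y := by linarith
  have hqz : 4 ≤ q * y := by nlinarith
  have h1 := pd_lower (k1 s) (k1_odd s) (k1_bdd s) (t := t n) (ε := q / (64 * (y + 1)))
    (ε' := 4 / (q * y)) (q := q) (X := y + 1) (Y := y) ht2
    (by positivity) ?_ ?_ hq0 (by positivity) (by positivity) hS ?_ ?_ ?_
  · refine le_trans ?_ h1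
    have he : Real.exp 1 ≤ 3 := by linarith [Real.exp_one_lt_d9]
    have e0 : q / (64 * (y + 1)) * q / (8 * Real.exp 1) = q ^ 2 / (512 * Real.exp 1 * (y + 1)) := by
      field_simp
      ring
    rw [e0]
    have e1 : q ^ 2 / (512 * 3 * (2 * y)) ≤ q ^ 2 / (512 * Real.exp 1 * (y + 1)) := by
      apply div_le_div_of_nonneg_left (by positivity) (by positivity)
      have : y + 1 ≤ 2 * y := by linarith
      calc 512 * Real.exp 1 * (y + 1) ≤ 512 * 3 * (2 * y) := by gcongr
        _ = 512 * 3 * (2 * y) := rfl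
    refine le_trans (le_of_eq ?_) e1
    have ht' : t n = q ^ 2 * y / 576 := by linarith
    rw [ht']
    field_simp
    ring
  · rw [div_le_div_iff₀ (by positivity) (by positivity)]
    have : q * (q * y) ≤ 1 * (1 * y) := by gcongr
    nlinarith
  · rw [div_le_one (by positivity)]; exact hqz
  · field_simp
  · field_simp
  · have ht' : t n = q ^ 2 * y / 576 := by linarith
    rw [ht']
    field_simp
    ring

theorem ratio_big (s : Sc h x t) (n : ℕ) :
    ((n : ℝ) + 1) * (1 + |h (t n)|) ≤ pd (k1 s) (t n) / pd (k0 s) (t n) := by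
  have h1 := pd0_le s n
  have h2 := le_pd1 s n
  have h3 := s.hr n
  have ht2 := s.t_two n
  have ht0 : 0 < t n := by linarith
  have hX1 : 1 ≤ Real.log (t n) := by linarith [s.log_ge n, s.x_nonneg n]
  have hp0 : 0 < pd (k0 s) (t n) := pd_pos _ ht0
  rw [le_div_iff₀ hp0]
  refine le_trans (mul_le_mul_of_nonneg_left h1 (by positivity)) (le_trans ?_ h2)
  set q := (1 / 2 : ℝ) ^ n with hq
  set m := ((n : ℝ) + 1) * (1 + |h (t n)|) with hm
  have hm0 : 0 ≤ m := by positivity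
  rw [← mul_div_assoc, div_le_div_iff₀ (by positivity) (by positivity)]
  have h4 : m * (11 * ((n : ℝ) + 3) ^ 2 * Real.log (t n)) * (1769472 * t n) ≤
      (m * (20000000 * ((n : ℝ) + 3) ^ 2 * Real.log (t n))) * t n := by
    have : 0 ≤ m * (((n : ℝ) + 3) ^ 2 * Real.log (t n)) * t n := by positivity
    nlinarith
  refine h4.trans ?_
  calc (m * (20000000 * ((n : ℝ) + 3) ^ 2 * Real.log (t n))) * t n ≤ (q ^ 4 * t n) * t n := by
        gcongr
    _ = q ^ 4 * t n ^ 2 := by ring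

end

end Pool.Agent.Y285.HR
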