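import Pool.Agent.Helper406.HK.Real

set_option autoImplicit false

/-!
Heat kernels of a critical and a subcritical operator on the real line whose ratio does not tend
to zero.  Here `d = 1`, `Ω = ℝ` and `H = -(A u')' + V u`.
-/

open MeasureTheory Filter Topology
open scoped ContDiff ComplexConjugate

namespace Pool.Agent.Y285.HR

noncomputable section

/-- The Hilbert space of complex square integrable functions on the line. -/
abbrev L2 : Type := Lp ℂ 2 (volume : Measure ℝ)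

/-- `u` is a smooth compactly supported function. -/
def IsTest (u : ℝ → ℂ) : Prop := ContDiff ℝ ∞ u ∧ HasCompactSupport u

/-- The sesquilinear form of `H = -(A u')' + V u` on test functions. -/
def Q (A V : ℝ → ℝ) (u v : ℝ → ℂ) : ℂ :=
  ∫ x, ((A x : ℂ) * (conj (deriv u x) * deriv v x) + (V x : ℂ) * (conj (u x) * v x))

/-- `m` is the bottom of the spectrum of `H`, that is, the infimum of the form over normalised
test functions. -/
def InfSpec (A V : ℝ → ℝ) (m : ℝ) : Prop :=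
  IsGLB {q : ℝ | ∃ u : ℝ → ℂ, IsTest u ∧ ∫ x, ‖u x‖ ^ 2 = 1 ∧ (Q A V u u).re = q} m

/-- `H` is critical: `inf σ(H - W) < 0` for every nonzero nonnegative test function `W`. -/
def Critical (A V : ℝ → ℝ) : Prop :=
  ∀ W : ℝ → ℝ, ContDiff ℝ ∞ W → HasCompactSupport W → (∀ x, 0 ≤ W x) → W ≠ 0 →
    ∃ m < 0, InfSpec A (fun x => V x - W x) m

/-- `H` is subcritical: `H ≥ ρ` for some smooth positive `ρ`. -/
def Subcritical (A V : ℝ → ℝ) : Prop :=
  ∃ ρ : ℝ → ℝ, ContDiff ℝ ∞ ρ ∧ (∀ x, 0 < ρ x) ∧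
    ∀ u, IsTest u → ∫ x, ρ x * ‖u x‖ ^ 2 ≤ (Q A V u u).re

/-- `R = (H + 1)⁻¹`, where `H` is the operator of the closure of the form `Q` on test functions:
every `R f` is a form limit of test functions and `Q(v, R f) = ⟨v, f - R f⟩` for test `v`. -/
def IsResolvent (A V : ℝ → ℝ) (R : L2 →L[ℂ] L2) : Prop :=
  ∀ f : L2, ∃ u : ℕ → ℝ → ℂ, (∀ n, IsTest (u n)) ∧
    Tendsto (fun n => ∫ x, ‖u n x - R f x‖ ^ 2) atTop (𝓝 0) ∧
    Tendsto (fun p : ℕ × ℕ => Q A V (u p.1 - u p.2) (u p.1 - u p.2)) atTop (𝓝 0) ∧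
    ∀ v, IsTest v → Tendsto (fun n => Q A V v (u n)) atTop
      (𝓝 (∫ x, conj (v x) * (f x - R f x)))

/-- `exp(-tH)` where `H = R⁻¹ - 1`, by the continuous functional calculus of the bounded
self-adjoint operator `R`. -/
def heatOp {E : Type*} [NormedAddCommGroup E] [InnerProductSpace ℂ E] [CompleteSpace E]
    (R : E →L[ℂ] E) (t : ℝ) : E →L[ℂ] E :=
  cfc (fun r : ℝ => if 0 < r then Real.exp (-(t * (1 / r - 1))) else 0) R

/-- `p` is the continuous integral kernel of `exp(-tH)`, `t > 0`. -/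
def IsHeatKernel (A V : ℝ → ℝ) (p : ℝ → ℝ → ℝ → ℝ) : Prop :=
  ∃ R : L2 →L[ℂ] L2, IsSelfAdjoint R ∧ IsResolvent A V R ∧ ∀ t, 0 < t →
    Continuous (fun z : ℝ × ℝ => p t z.1 z.2) ∧
    ∀ f : L2, (heatOp R t f : ℝ → ℂ) =ᵐ[volume] fun x => ∫ y, (p t x y : ℂ) * f y

open Pool.Agent.Helper406.HK

theorem Q_re (c : Coef) {V : ℝ → ℝ} (hV : Continuous V) (u : Test) :
    (Q c.a V u u).re = energy c u + ∫ x, V x * ‖(u : ℝ → ℂ) x‖ ^ 2 := by
  have i1 := tint_en c u
  have i2 : Integrable (fun x => V x * ‖(u : ℝ → ℂ) x‖ ^ 2) := by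
    apply Continuous.integrable_of_hasCompactSupport (hV.mul ((tcd u).continuous.norm.pow 2))
    exact (sq_cs (tcs u)).mul_left
  unfold Q energy
  rw [← integral_add i1 i2]
  have h1 : ∀ x, ((c.a x : ℂ) * (conj (deriv (u : ℝ → ℂ) x) * deriv (u : ℝ → ℂ) x)
      + (V x : ℂ) * (conj ((u : ℝ → ℂ) x) * (u : ℝ → ℂ) x))
      = ((c.a x * ‖deriv (u : ℝ → ℂ) x‖ ^ 2 + V x * ‖(u : ℝ → ℂ) x‖ ^ 2 : ℝ) : ℂ) := by
    intro x
    rw [mul_comm (conj (deriv (u : ℝ → ℂ) x)), mul_comm (conj ((u : ℝ → ℂ) x)),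
      Complex.mul_conj, Complex.mul_conj, Complex.normSq_eq_norm_sq, Complex.normSq_eq_norm_sq]
    push_cast
    ring
  simp_rw [h1]
  rw [integral_complex_ofReal]
  exact Complex.ofReal_re _

theorem Q_zero (c : Coef) (u v : ℝ → ℂ) :
    Q c.a (fun _ => 0) u v = ∫ x, (c.a x : ℂ) * (conj (deriv u x) * deriv v x) := by
  unfold Q
  simp

theorem Q_zero_re (c : Coef) (u : Test) : (Q c.a (fun _ => 0) u u).re = energy c u := by
  rw [Q_re c continuous_const]
  simp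

theorem Q_zero_self (c : Coef) (u : Test) :
    Q c.a (fun _ => 0) u u = ((energy c u : ℝ) : ℂ) := by
  rw [Q_zero]
  unfold energy
  rw [← integral_complex_ofReal]
  congr 1
  funext x
  rw [mul_comm (conj (deriv (u : ℝ → ℂ) x)), Complex.mul_conj, Complex.normSq_eq_norm_sq]
  push_cast
  ring

theorem infSpec_zero (c : Coef)
    (h : ∀ δ : ℝ, 0 < δ → ∃ u : Test, (∫ x, ‖(u : ℝ → ℂ) x‖ ^ 2 = 1) ∧ energy c u < δ) :
    InfSpec c.a (fun _ => 0) 0 := by
  constructor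
  · rintro q ⟨u, hu, _, rfl⟩
    have := Q_zero_re c ⟨u, hu⟩
    rw [this]
    exact energy_nonneg c _
  · intro b hb
    by_contra hlt
    push Not at hlt
    obtain ⟨u, hu1, hu2⟩ := h b hlt
    have := hb ⟨(u : ℝ → ℂ), u.2, hu1, rfl⟩
    rw [Q_zero_re] at this
    linarith

theorem isCritical (c : Coef) (hodd : ∀ x, c.S (-x) = - c.S x) (hS : Tendsto c.S atTop atTop) :
    Critical c.a (fun _ => 0) := by
  intro W hW1 hW2 hW3 hW4
  have hWc : Continuous W := hW1.continuous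
  obtain ⟨B, hB⟩ := hW2.exists_bound_of_continuous hWc
  have hVc : Continuous (fun x => (0 : ℝ) - W x) := continuous_const.sub hWc
  obtain ⟨v, hv⟩ := critical_of c hodd hS hWc hW2 hW3 hW4
  have iW : ∀ u : Test, Integrable (fun x => W x * ‖(u : ℝ → ℂ) x‖ ^ 2) := by
    intro u
    apply Continuous.integrable_of_hasCompactSupport (hWc.mul ((tcd u).continuous.norm.pow 2))
    exact (sq_cs (tcs u)).mul_left
  have hQ : ∀ u : Test, (Q c.a (fun x => (0 : ℝ) - W x) u u).re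
      = energy c u - ∫ x, W x * ‖(u : ℝ → ℂ) x‖ ^ 2 := by
    intro u
    rw [Q_re c hVc]
    have : (fun x => ((0 : ℝ) - W x) * ‖(u : ℝ → ℂ) x‖ ^ 2)
        = fun x => - (W x * ‖(u : ℝ → ℂ) x‖ ^ 2) := by funext x; ring
    rw [this, integral_neg]
    ring
  set s := {q : ℝ | ∃ u : ℝ → ℂ, IsTest u ∧ ∫ x, ‖u x‖ ^ 2 = 1 ∧
    (Q c.a (fun x => (0 : ℝ) - W x) u u).re = q} with hs
  have hbdd : BddBelow s := by
    refine ⟨-B, ?_⟩
    rintro q ⟨u, hu, hu1, rfl⟩
    have h1 := hQ ⟨u, hu⟩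
    rw [h1]
    have h2 : ∫ x, W x * ‖u x‖ ^ 2 ≤ ∫ x, B * ‖u x‖ ^ 2 := by
      apply integral_mono (iW ⟨u, hu⟩) ((tint_sq ⟨u, hu⟩).const_mul B)
      intro x
      apply mul_le_mul_of_nonneg_right _ (sq_nonneg _)
      exact (le_abs_self _).trans (hB x)
    rw [integral_const_mul, hu1, mul_one] at h2
    have h3 := energy_nonneg c u
    show -B ≤ energy c u - ∫ x, W x * ‖u x‖ ^ 2
    linarith
  have hN : 0 < ∫ x, ‖(v : ℝ → ℂ) x‖ ^ 2 := by
    by_contra hcon
    have h0 : ∫ x, ‖(v : ℝ → ℂ) x‖ ^ 2 = 0 :=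
      le_antisymm (not_lt.mp hcon) (integral_nonneg (fun _ => sq_nonneg _))
    have h1 : ∫ x, W x * ‖(v : ℝ → ℂ) x‖ ^ 2 ≤ ∫ x, B * ‖(v : ℝ → ℂ) x‖ ^ 2 := by
      apply integral_mono (iW v) ((tint_sq v).const_mul B)
      intro x
      apply mul_le_mul_of_nonneg_right _ (sq_nonneg _)
      exact (le_abs_self _).trans (hB x)
    rw [integral_const_mul, h0, mul_zero] at h1
    have := energy_nonneg c v
    linarith
  set N := ∫ x, ‖(v : ℝ → ℂ) x‖ ^ 2 with hNdef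
  set r : ℂ := (((√N)⁻¹ : ℝ) : ℂ) with hr
  have hr2 : ‖r‖ ^ 2 = 1 / N := by
    rw [hr, Complex.norm_real, Real.norm_eq_abs, sq_abs, inv_pow, Real.sq_sqrt hN.le, one_div]
  have e0 : ∀ x, ‖((r • v : Test) : ℝ → ℂ) x‖ ^ 2 = (1 / N) * ‖(v : ℝ → ℂ) x‖ ^ 2 := by
    intro x
    simp only [Submodule.coe_smul, Pi.smul_apply, smul_eq_mul, norm_mul, mul_pow, hr2]
  have e1 : ∫ x, ‖((r • v : Test) : ℝ → ℂ) x‖ ^ 2 = 1 := by
    simp_rw [e0]
    rw [integral_const_mul, ← hNdef]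
    field_simp
  have e2 : (Q c.a (fun x => (0 : ℝ) - W x) (r • v : Test) (r • v : Test)).re
      = (1 / N) * (energy c v - ∫ x, W x * ‖(v : ℝ → ℂ) x‖ ^ 2) := by
    rw [hQ]
    have e3 : energy c (r • v : Test) = (1 / N) * energy c v := by
      unfold energy
      have h1 : ∀ x, c.a x * ‖deriv ((r • v : Test) : ℝ → ℂ) x‖ ^ 2
          = (1 / N) * (c.a x * ‖deriv (v : ℝ → ℂ) x‖ ^ 2) := by
        intro x
        simp only [Submodule.coe_smul]
        rw [deriv_const_smul_field, norm_smul, mul_pow, hr2]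
        ring
      simp_rw [h1]
      rw [integral_const_mul]
    have e4 : ∫ x, W x * ‖((r • v : Test) : ℝ → ℂ) x‖ ^ 2
        = (1 / N) * ∫ x, W x * ‖(v : ℝ → ℂ) x‖ ^ 2 := by
      simp_rw [e0]
      rw [← integral_const_mul]
      congr 1
      funext x
      ring
    rw [e3, e4]
    ring
  have hmem : (1 / N) * (energy c v - ∫ x, W x * ‖(v : ℝ → ℂ) x‖ ^ 2) ∈ s :=
    ⟨((r • v : Test) : ℝ → ℂ), (r • v : Test).2, e1, e2⟩
  have hneg : (1 / N) * (energy c v - ∫ x, W x * ‖(v : ℝ → ℂ) x‖ ^ 2) < 0 :=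
    mul_neg_of_pos_of_neg (by positivity) hv
  exact ⟨sInf s, lt_of_le_of_lt (csInf_le hbdd hmem) hneg, isGLB_csInf ⟨_, hmem⟩ hbdd⟩

theorem isSubcritical (c : Coef) {C : ℝ} (hC0 : 0 < C) (hC : ∀ x, |c.S x| ≤ C) :
    Subcritical c.a (fun _ => 0) := by
  refine ⟨rho C, rho_smooth C, rho_pos hC0, ?_⟩
  intro u hu
  have h1 := Q_zero_re c ⟨u, hu⟩
  rw [h1]
  exact hardy_int c hC0 hC ⟨u, hu⟩

theorem sub_ae (u : Test) (F : L2) :
    ‖(tmemLp u).toLp _ - F‖ ^ 2 = ∫ x, ‖(u : ℝ → ℂ) x - F x‖ ^ 2 := by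
  have h1 := norm_toLp_sq (Lp.memLp ((tmemLp u).toLp _ - F))
  rw [Lp.toLp_coeFn] at h1
  rw [h1]
  apply integral_congr_ae
  filter_upwards [Lp.coeFn_sub ((tmemLp u).toLp _) F, (tmemLp u).coeFn_toLp] with x h2 h3
  rw [h2, Pi.sub_apply, h3]

theorem int_conj_mul (v : Test) (F : L2) :
    Integrable (fun x => conj ((v : ℝ → ℂ) x) * F x) := by
  have h1 := L2.integrable_inner (𝕜 := ℂ) ((tmemLp v).toLp _ : L2) F
  refine h1.congr ?_
  filter_upwards [(tmemLp v).coeFn_toLp] with x hx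
  rw [hx]
  simp [mul_comm]

theorem inner_emb_eq (c : Coef) (v u : Test) : (inner ℂ (emb c v) (emb c u) : ℂ)
    = (∫ x, conj ((v : ℝ → ℂ) x) * (u : ℝ → ℂ) x) + Q c.a (fun _ => 0) v u := by
  rw [Q_zero]
  exact inner_emb c v u

theorem inner_emb_toLp (v : Test) (F : L2) :
    (inner ℂ ((tmemLp v).toLp _ : L2) F : ℂ) = ∫ x, conj ((v : ℝ → ℂ) x) * F x := by
  rw [L2.inner_def]
  apply integral_congr_ae
  filter_upwards [(tmemLp v).coeFn_toLp] with x hx
  rw [hx]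
  simp [mul_comm]

theorem isResolvent_Rc (c : Coef) : IsResolvent c.a (fun _ => 0) (Rc c) := by
  intro f
  obtain ⟨u, hu⟩ := exists_approx c (ContinuousLinearMap.adjoint (pr c) f)
  have h1 : Tendsto (fun n => (tmemLp (u n)).toLp _) atTop (𝓝 (Rc c f)) :=
    ((pr c).continuous.tendsto _).comp hu
  refine ⟨fun n => (u n : ℝ → ℂ), fun n => (u n).2, ?_, ?_, ?_⟩
  · have h2 := (tendsto_iff_norm_sub_tendsto_zero.mp h1).pow 2
    rw [zero_pow two_ne_zero] at h2
    refine h2.congr ?_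
    intro n
    exact sub_ae (u n) (Rc c f)
  · have h2 : Tendsto (fun p : ℕ × ℕ => dist (emb c (u p.1)) (emb c (u p.2)) ^ 2) atTop
        (𝓝 (0 ^ 2)) := (cauchySeq_iff_tendsto_dist_atTop_0.mp hu.cauchySeq).pow 2
    rw [zero_pow two_ne_zero] at h2
    have h3 : Tendsto (fun p : ℕ × ℕ => energy c ((u p.1 - u p.2 : Test) : ℝ → ℂ)) atTop
        (𝓝 0) := by
      apply squeeze_zero (fun _ => energy_nonneg c _) _ h2
      intro p
      rw [dist_eq_norm, ← map_sub, norm_emb_sq]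
      have : 0 ≤ ∫ x, ‖((u p.1 - u p.2 : Test) : ℝ → ℂ) x‖ ^ 2 :=
        integral_nonneg (fun _ => sq_nonneg _)
      linarith
    have h4 := (Complex.continuous_ofReal.tendsto 0).comp h3
    rw [Complex.ofReal_zero] at h4
    refine h4.congr ?_
    intro p
    exact (Q_zero_self c (u p.1 - u p.2)).symm
  · intro v hv
    set w : Test := ⟨v, hv⟩ with hw
    have h2 : Tendsto (fun n => (inner ℂ (emb c w) (emb c (u n)) : ℂ)) atTop
        (𝓝 (inner ℂ (emb c w) (ContinuousLinearMap.adjoint (pr c) f))) :=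
      ((innerSL ℂ (emb c w)).continuous.tendsto _).comp hu
    have h3 : Tendsto (fun n => (inner ℂ ((tmemLp w).toLp _ : L2) ((tmemLp (u n)).toLp _) : ℂ))
        atTop (𝓝 (inner ℂ ((tmemLp w).toLp _ : L2) (Rc c f))) :=
      ((innerSL ℂ ((tmemLp w).toLp _ : L2)).continuous.tendsto _).comp h1
    have h4 := h2.sub h3
    have h5 : (inner ℂ (emb c w) (ContinuousLinearMap.adjoint (pr c) f) : ℂ)
        - inner ℂ ((tmemLp w).toLp _ : L2) (Rc c f)
        = ∫ x, conj (v x) * (f x - Rc c f x) := by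
      rw [ContinuousLinearMap.adjoint_inner_right, pr_emb, inner_emb_toLp, inner_emb_toLp,
        ← integral_sub (int_conj_mul w f) (int_conj_mul w (Rc c f))]
      congr 1
      funext x
      show conj (v x) * f x - conj (v x) * Rc c f x = _
      ring
    rw [h5] at h4
    refine h4.congr ?_
    intro n
    rw [inner_emb_eq, inner_toLp]
    exact add_sub_cancel_left _ _

theorem resolvent_eq (c : Coef) {R : L2 →L[ℂ] L2} (hR : IsResolvent c.a (fun _ => 0) R) :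
    R = Rc c := by
  ext1 f
  obtain ⟨u, hu1, hu2, hu3, hu4⟩ := hR f
  set w : ℕ → Test := fun n => ⟨u n, hu1 n⟩ with hw
  have h1 : Tendsto (fun n => (tmemLp (w n)).toLp _) atTop (𝓝 (R f)) := by
    rw [tendsto_iff_norm_sub_tendsto_zero]
    have h2 : Tendsto (fun n => ‖(tmemLp (w n)).toLp _ - R f‖ ^ 2) atTop (𝓝 0) := by
      refine hu2.congr ?_
      intro n
      exact (sub_ae (w n) (R f)).symm
    have h3 := h2.sqrt
    rw [Real.sqrt_zero] at h3
    refine h3.congr ?_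
    intro n
    exact Real.sqrt_sq (norm_nonneg _)
  apply resolvent_unique c f (R f) w h1
  · have h2 := (Complex.continuous_re.tendsto 0).comp hu3
    rw [Complex.zero_re] at h2
    refine h2.congr ?_
    intro p
    exact Q_zero_re c (w p.1 - w p.2)
  · intro v
    have h2 := hu4 v v.2
    have h3 : Tendsto (fun n => (inner ℂ ((tmemLp v).toLp _ : L2) ((tmemLp (w n)).toLp _) : ℂ))
        atTop (𝓝 (inner ℂ ((tmemLp v).toLp _ : L2) (R f))) :=
      ((innerSL ℂ ((tmemLp v).toLp _ : L2)).continuous.tendsto _).comp h1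
    have h4 := h3.add h2
    have h5 : (inner ℂ ((tmemLp v).toLp _ : L2) (R f) : ℂ)
        + ∫ x, conj ((v : ℝ → ℂ) x) * (f x - R f x) = ∫ x, conj ((v : ℝ → ℂ) x) * f x := by
      rw [inner_emb_toLp]
      have h6 : ∀ x, conj ((v : ℝ → ℂ) x) * (f x - R f x)
          = conj ((v : ℝ → ℂ) x) * f x - conj ((v : ℝ → ℂ) x) * R f x := fun x => by ring
      simp_rw [h6]
      rw [integral_sub (int_conj_mul v f) (int_conj_mul v (R f))]
      ring
    rw [h5] at h4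
    refine h4.congr ?_
    intro n
    rw [inner_emb_eq, inner_toLp]

theorem isHeatKernel_pR (c : Coef) : IsHeatKernel c.a (fun _ => 0) (pR c) :=
  ⟨Rc c, Rc_sa c, isResolvent_Rc c, fun t ht => ⟨pR_cont c t, fun f => pR_kernel c ht f⟩⟩

theorem heatKernel_eq (c : Coef) {p : ℝ → ℝ → ℝ → ℝ} (hp : IsHeatKernel c.a (fun _ => 0) p)
    {t : ℝ} (ht : 0 < t) (x y : ℝ) : p t x y = pR c t x y := by
  obtain ⟨R, _, hR, hk⟩ := hp
  have hRc := resolvent_eq c hR
  subst hRc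
  obtain ⟨hk1, hk2⟩ := hk t ht
  have h1 := kernel_unique (A := fun f => fc (hfun t) (Rc c) f)
    (p1 := fun x y => (p t x y : ℂ)) (p2 := fun x y => (pR c t x y : ℂ))
    (Complex.continuous_ofReal.comp hk1) (Complex.continuous_ofReal.comp (pR_cont c t))
    (fun f => hk2 f) (fun f => pR_kernel c ht f) x y
  exact_mod_cast h1

end

end Pool.Agent.Y285.HR
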